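import Mathlib
import Pool.Prelude.Def_F_8adaa765

set_option autoImplicit false
open N435e839e

namespace Pool.Agent.Results.MP_d025d0_nt.SmallDivisorPart
open Finset

open Classical in
noncomputable def roughSet (N z : ℕ) : Finset ℕ :=
  (Finset.Icc 1 N).filter (fun k => ∀ q, q.Prime → q ∣ k → z ≤ q)

theorem mem_roughSet {N z k : ℕ} :
    k ∈ roughSet N z ↔ (1 ≤ k ∧ k ≤ N) ∧ ∀ q, q.Prime → q ∣ k → z ≤ q := by
  classical
  simp [roughSet]

theorem harm_real (n : ℕ) : ∑ j ∈ Finset.Icc 1 n, (1 : ℝ) / j = (harmonic n : ℝ) := by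
  rw [harmonic_eq_sum_Icc]; push_cast; simp [one_div]

theorem rough_inj {N z : ℕ} :
    Set.InjOn (fun x : ℕ × ℕ => x.1 * x.2)
      (↑(roughSet N z ×ˢ Finset.Icc 1 (z - 1)) : Set (ℕ × ℕ)) := by
  have key : ∀ k m k' m' : ℕ, 1 ≤ k → (∀ q, q.Prime → q ∣ k → z ≤ q) → 1 ≤ m' → m' ≤ z - 1 →
      k * m = k' * m' → k ∣ k' := by
    intro k m k' m' hk hr hm1 hm2 h
    have hc : Nat.Coprime k m' := by
      rw [Nat.coprime_iff_gcd_eq_one]
      by_contra hne
      obtain ⟨q, hq, hqd⟩ := Nat.exists_prime_and_dvd hne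
      have h1 : q ∣ k := hqd.trans (Nat.gcd_dvd_left _ _)
      have h2 : q ∣ m' := hqd.trans (Nat.gcd_dvd_right _ _)
      have h3 := hr q hq h1
      have h4 := Nat.le_of_dvd hm1 h2
      have := hq.two_le
      omega
    exact hc.dvd_of_dvd_mul_right (h ▸ Dvd.intro m rfl)
  rintro ⟨k, m⟩ h1 ⟨k', m'⟩ h2 h
  simp only [coe_product, Set.mem_prod, mem_coe, mem_roughSet, mem_Icc] at h1 h2
  simp only at h
  have e1 := key k m k' m' h1.1.1.1 h1.1.2 h2.2.1 h2.2.2 h
  have e2 := key k' m' k m h2.1.1.1 h2.1.2 h1.2.1 h1.2.2 h.symm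
  have e3 : k = k' := Nat.dvd_antisymm e1 e2
  subst e3
  have : m = m' := Nat.eq_of_mul_eq_mul_left h1.1.1.1 h
  rw [this]

theorem rough_harm {N z : ℕ} (hz : 2 ≤ z) (hzN : z ≤ N) :
    (∑ k ∈ roughSet N z, (1 : ℝ) / k) * Real.log z ≤ 1 + 2 * Real.log N := by
  have hN : (2:ℝ) ≤ N := by exact_mod_cast hz.trans hzN
  have h1 : Real.log z ≤ ∑ m ∈ Finset.Icc 1 (z - 1), (1 : ℝ) / m := by
    rw [harm_real]
    have := log_add_one_le_harmonic (z - 1)
    rwa [show z - 1 + 1 = z by omega] at this
  have h0 : 0 ≤ ∑ k ∈ roughSet N z, (1 : ℝ) / k := by positivity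
  calc (∑ k ∈ roughSet N z, (1 : ℝ) / k) * Real.log z
      ≤ (∑ k ∈ roughSet N z, (1 : ℝ) / k) * ∑ m ∈ Finset.Icc 1 (z - 1), (1 : ℝ) / m :=
        mul_le_mul_of_nonneg_left h1 h0
    _ = ∑ x ∈ roughSet N z ×ˢ Finset.Icc 1 (z - 1), (1 : ℝ) / ((x.1 * x.2 : ℕ) : ℝ) := by
        rw [Finset.sum_mul_sum, ← Finset.sum_product']
        refine Finset.sum_congr rfl fun x _ => ?_
        push_cast
        rw [one_div_mul_one_div]
    _ = ∑ j ∈ (roughSet N z ×ˢ Finset.Icc 1 (z - 1)).image (fun x : ℕ × ℕ => x.1 * x.2),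
          (1 : ℝ) / (j : ℝ) := by
        rw [Finset.sum_image rough_inj]
    _ ≤ ∑ j ∈ Finset.Icc 1 (N * N), (1 : ℝ) / j := by
        refine Finset.sum_le_sum_of_subset_of_nonneg ?_ (fun _ _ _ => by positivity)
        intro j hj
        simp only [mem_image, mem_product, mem_roughSet, mem_Icc, Prod.exists] at hj
        obtain ⟨k, m, ⟨⟨⟨hk1, hk2⟩, _⟩, hm1, hm2⟩, rfl⟩ := hj
        rw [mem_Icc]
        exact ⟨Nat.mul_pos hk1 hm1, Nat.mul_le_mul hk2 (by omega)⟩
    _ ≤ 1 + Real.log ((N * N : ℕ) : ℝ) := by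
        rw [harm_real]; exact harmonic_le_one_add_log _
    _ = 1 + 2 * Real.log N := by
        push_cast
        rw [Real.log_mul (by positivity) (by positivity)]; ring

theorem rough_log {N z : ℕ} :
    ∑ k ∈ roughSet N z, Real.log k ≤
      (Real.log 4 + 4) * N * ∑ k ∈ roughSet N z, (1 : ℝ) / k := by
  classical
  calc ∑ k ∈ roughSet N z, Real.log k
      = ∑ k ∈ roughSet N z, ∑ d ∈ k.divisors, ArithmeticFunction.vonMangoldt d := by
        refine Finset.sum_congr rfl fun k _ => ?_
        rw [ArithmeticFunction.vonMangoldt_sum]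
    _ = ∑ x ∈ (roughSet N z).sigma (fun k => k.divisors), ArithmeticFunction.vonMangoldt x.2 := by
        rw [Finset.sum_sigma]
    _ = ∑ y ∈ ((roughSet N z).sigma (fun k => k.divisors)).image
          (fun x : (_ : ℕ) × ℕ => (x.1 / x.2, x.2)), ArithmeticFunction.vonMangoldt y.2 := by
        rw [Finset.sum_image]
        rintro ⟨k, d⟩ h1 ⟨k', d'⟩ h2 h
        simp only [coe_sigma, Set.mem_sigma_iff, mem_coe, Nat.mem_divisors] at h1 h2
        simp only [Prod.mk.injEq] at h
        obtain ⟨ha, hb⟩ := h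
        subst hb
        have : k = k' := by
          have e1 := Nat.div_mul_cancel h1.2.1
          have e2 := Nat.div_mul_cancel h2.2.1
          rw [← e1, ← e2, ha]
        subst this; rfl
    _ ≤ ∑ y ∈ (roughSet N z).sigma (fun m => Finset.Ioc 0 (N / m)),
          ArithmeticFunction.vonMangoldt y.2 := by
        rw [← Finset.sum_image (f := fun y : ℕ × ℕ => ArithmeticFunction.vonMangoldt y.2)
          (g := fun y : (_ : ℕ) × ℕ => (y.1, y.2))
          (s := (roughSet N z).sigma (fun m => Finset.Ioc 0 (N / m)))]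
        · refine Finset.sum_le_sum_of_subset_of_nonneg ?_
            (fun _ _ _ => ArithmeticFunction.vonMangoldt_nonneg)
          intro y hy
          simp only [mem_image, mem_sigma, Nat.mem_divisors, mem_roughSet, Sigma.exists] at hy
          obtain ⟨k, d, ⟨⟨⟨hk1, hk2⟩, hr⟩, hd, _⟩, rfl⟩ := hy
          have hd0 : 0 < d := Nat.pos_of_dvd_of_pos hd hk1
          simp only [mem_image, mem_sigma, mem_Ioc, mem_roughSet, Sigma.exists]
          refine ⟨k / d, d, ⟨⟨⟨?_, ?_⟩, ?_⟩, hd0, ?_⟩, rfl⟩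
          · exact Nat.div_pos (Nat.le_of_dvd hk1 hd) hd0
          · exact (Nat.div_le_self _ _).trans hk2
          · intro q hq hqd
            exact hr q hq (hqd.trans (Nat.div_dvd_of_dvd hd))
          · rw [Nat.le_div_iff_mul_le (Nat.div_pos (Nat.le_of_dvd hk1 hd) hd0)]
            rw [mul_comm, Nat.div_mul_cancel hd]; exact hk2
        · rintro ⟨a, b⟩ _ ⟨c, d⟩ _ h
          simp only [Prod.mk.injEq] at h
          obtain ⟨rfl, rfl⟩ := h; rfl
    _ = ∑ m ∈ roughSet N z, Chebyshev.psi ((N / m : ℕ) : ℝ) := by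
        rw [Finset.sum_sigma]
        refine Finset.sum_congr rfl fun m _ => ?_
        simp [Chebyshev.psi]
    _ ≤ ∑ m ∈ roughSet N z, (Real.log 4 + 4) * N * ((1 : ℝ) / m) := by
        refine Finset.sum_le_sum fun m hm => ?_
        have h4 : 0 ≤ Real.log 4 := Real.log_nonneg (by norm_num)
        have hm1 : (1:ℝ) ≤ m := by
          rw [mem_roughSet] at hm; exact_mod_cast hm.1.1
        calc Chebyshev.psi ((N / m : ℕ) : ℝ) ≤ (Real.log 4 + 4) * ((N / m : ℕ) : ℝ) :=
              Chebyshev.psi_le_const_mul_self (by positivity)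
          _ ≤ (Real.log 4 + 4) * ((N : ℝ) / m) :=
              mul_le_mul_of_nonneg_left Nat.cast_div_le (by positivity)
          _ = _ := by ring
    _ = _ := by rw [Finset.mul_sum]

theorem rough_card {N z : ℕ} (hz : 2 ≤ z) (hzN : z ≤ N) :
    ((roughSet N z).card : ℝ) * Real.log z ≤ 25 * N := by
  have hN2 : (2:ℝ) ≤ N := by exact_mod_cast hz.trans hzN
  have hN0 : (0:ℝ) < N := by linarith
  have hlogN : 0 < Real.log N := Real.log_pos (by linarith)
  have hlog2 : (0.69:ℝ) < Real.log 2 := by have := Real.log_two_gt_d9; linarith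
  have hlog2' : Real.log 2 < (0.7:ℝ) := by have := Real.log_two_lt_d9; linarith
  have hlogN2 : (0.69:ℝ) < Real.log N :=
    hlog2.trans_le (Real.log_le_log (by norm_num) hN2)
  have hlog4 : Real.log 4 < 1.4 := by
    rw [show (4:ℝ) = 2 ^ 2 by norm_num, Real.log_pow]; push_cast; linarith
  set H : ℝ := ∑ k ∈ roughSet N z, (1 : ℝ) / k with hH
  have hH0 : 0 ≤ H := by positivity
  have h1 := rough_log (N := N) (z := z)
  rw [← hH] at h1
  have h2 : ∑ k ∈ roughSet N z, (Real.log N - Real.log k) ≤ N * H := by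
    rw [hH, Finset.mul_sum]
    refine Finset.sum_le_sum fun k hk => ?_
    have hk1 : (1:ℝ) ≤ k := by
      rw [mem_roughSet] at hk; exact_mod_cast hk.1.1
    rw [← Real.log_div (by positivity) (by positivity)]
    have : 0 < (N:ℝ) / k := by positivity
    have := Real.log_le_sub_one_of_pos this
    have e : (N:ℝ) * (1 / k) = N / k := by ring
    rw [e]; linarith
  have h3 : ((roughSet N z).card : ℝ) * Real.log N ≤ 6.4 * N * H := by
    have : ∑ k ∈ roughSet N z, (Real.log N - Real.log k) =
        ((roughSet N z).card : ℝ) * Real.log N - ∑ k ∈ roughSet N z, Real.log k := by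
      rw [Finset.sum_sub_distrib]; simp
    rw [this] at h2
    have : (Real.log 4 + 4) * N * H ≤ 5.4 * N * H := by
      have : 0 ≤ N * H := by positivity
      nlinarith
    nlinarith
  have h4 := rough_harm hz hzN
  rw [← hH] at h4
  have hlz : 0 ≤ Real.log z := Real.log_natCast_nonneg z
  -- multiply
  have h5 : ((roughSet N z).card : ℝ) * Real.log N * Real.log z ≤ 6.4 * N * (1 + 2 * Real.log N) := by
    calc ((roughSet N z).card : ℝ) * Real.log N * Real.log z ≤ 6.4 * N * H * Real.log z :=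
          mul_le_mul_of_nonneg_right h3 hlz
      _ = 6.4 * N * (H * Real.log z) := by ring
      _ ≤ 6.4 * N * (1 + 2 * Real.log N) := mul_le_mul_of_nonneg_left h4 (by positivity)
  have h6 : 6.4 * N * (1 + 2 * Real.log N) ≤ 25 * N * Real.log N := by
    have : 0 ≤ N * (Real.log N - 0.69) := by
      apply mul_nonneg hN0.le; linarith
    nlinarith
  have h7 : (((roughSet N z).card : ℝ) * Real.log z) * Real.log N ≤ (25 * N) * Real.log N := by
    nlinarith
  exact le_of_mul_le_mul_right h7 hlogN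


/-! ### The greedy set -/

theorem greedy_spec (n t : ℕ) :
    (∀ a ∈ greedyPrefix false n t, a ≤ t) ∧
    (∀ a ∈ greedyPrefix false n t, ∀ b ∈ greedyPrefix false n t, a < b → 2 ≤ b →
      Nat.Coprime (n - b) (n - a)) := by
  induction t with
  | zero =>
    constructor
    · intro a ha; simp [greedyPrefix] at ha
    · intro a ha b hb hab; simp [greedyPrefix] at ha
  | succ t ih =>
    obtain ⟨ih1, ih2⟩ := ih
    unfold greedyPrefix
    simp only
    split_ifs with hc
    · constructor
      · intro a ha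
        rw [mem_insert] at ha
        rcases ha with rfl | ha
        · exact le_rfl
        · have := ih1 a ha; omega
      · intro a ha b hb hab hb2
        rw [mem_insert] at ha hb
        rcases hb with rfl | hb
        · rcases ha with rfl | ha
          · omega
          · rcases hc with hc | hc
            · omega
            · exact hc a ha
        · rcases ha with rfl | ha
          · have := ih1 b hb; omega
          · exact ih2 a ha b hb hab hb2
    · constructor
      · intro a ha; have := ih1 a ha; omega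
      · exact ih2

theorem selected_coprime {n a b : ℕ} (ha : a ∈ selected false n) (hb : b ∈ selected false n)
    (hab : a ≠ b) : Nat.Coprime (n - a) (n - b) := by
  simp only [selected, mem_filter] at ha hb
  rcases lt_or_gt_of_ne hab with h | h
  · exact ((greedy_spec n (n - 1)).2 a ha.1 b hb.1 h (by omega)).symm
  · exact (greedy_spec n (n - 1)).2 b hb.1 a ha.1 h (by omega)

open Classical in
/-- the small-prime selected terms -/
noncomputable def P (n : ℕ) : Finset ℕ := (selected false n).filter (Proper n)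

theorem properSum_eq (n : ℕ) : properSum false n = ∑ a ∈ P n, (1 : ℝ) / (a : ℝ) := rfl

theorem mem_P {n a : ℕ} (h : a ∈ P n) :
    a ∈ selected false n ∧ 0 < a ∧ a < n ∧ (n - a).minFac.Prime ∧ (n - a).minFac ≤ a := by
  simp only [P, mem_filter] at h
  obtain ⟨h1, p, hp, hpa, hpd⟩ := h
  have h1' := h1
  simp only [selected, mem_filter] at h1'
  refine ⟨h1, h1'.2.1, h1'.2.2, ?_, ?_⟩
  · apply Nat.minFac_prime
    intro h
    rw [h] at hpd
    exact hp.one_lt.ne' (Nat.dvd_one.mp hpd)
  · exact (Nat.minFac_le_of_dvd hp.two_le hpd).trans hpa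

theorem minFac_inj {n : ℕ} : Set.InjOn (fun a => (n - a).minFac) (↑(P n) : Set ℕ) := by
  intro a ha b hb hab
  rw [mem_coe] at ha hb
  by_contra hne
  have hc := selected_coprime (mem_P ha).1 (mem_P hb).1 hne
  simp only at hab
  have h1 : (n - a).minFac ∣ n - a := Nat.minFac_dvd _
  have h2 : (n - a).minFac ∣ n - b := hab ▸ Nat.minFac_dvd _
  have := Nat.dvd_gcd h1 h2
  rw [Nat.coprime_iff_gcd_eq_one.mp hc] at this
  exact (mem_P ha).2.2.2.1.one_lt.ne' (Nat.dvd_one.mp this)

theorem inv_sq_sum' (m : ℕ) :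
    ∑ i ∈ Finset.Icc 1 (m + 1), (1 : ℝ) / ((i : ℝ) * i) ≤ 2 - 1 / (m + 1) := by
  induction m with
  | zero => norm_num
  | succ m ih =>
    rw [Finset.sum_Icc_succ_top (by omega)]
    have h1 : (1 : ℝ) / (((m + 1 + 1 : ℕ) : ℝ) * ((m + 1 + 1 : ℕ) : ℝ)) ≤
        1 / ((m : ℝ) + 1) - 1 / ((m : ℝ) + 1 + 1) := by
      push_cast
      rw [div_sub_div _ _ (by positivity) (by positivity),
        div_le_div_iff₀ (by positivity) (by positivity)]
      nlinarith [(Nat.cast_nonneg m : (0:ℝ) ≤ m)]
    push_cast at h1 ih ⊢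
    linarith

theorem inv_sq_sum (m : ℕ) : ∑ i ∈ Finset.Icc 1 m, (1 : ℝ) / ((i : ℝ) * i) ≤ 2 := by
  rcases m with _ | m
  · simp
  · have := inv_sq_sum' m
    have h : 0 ≤ 1 / ((m : ℝ) + 1) := by positivity
    linarith

/-- bound for the number of rough numbers, divided form -/
theorem rough_card' {N i : ℕ} (hi : 1 ≤ i) (hN : 2 ^ i ≤ N) :
    ((roughSet N (2 ^ i)).card : ℝ) ≤ 37 * N / i := by
  have h2 : 2 ≤ 2 ^ i := by
    calc 2 = 2 ^ 1 := by norm_num
      _ ≤ 2 ^ i := Nat.pow_le_pow_right (by norm_num) hi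
  have h := rough_card h2 hN
  have hlog2 : (0.69:ℝ) < Real.log 2 := by have := Real.log_two_gt_d9; linarith
  push_cast at h
  rw [Real.log_pow] at h
  have hi' : (0:ℝ) < i := by exact_mod_cast hi
  rw [le_div_iff₀ hi']
  have hc : (0:ℝ) ≤ (roughSet N (2 ^ i)).card := by positivity
  have hNN : (0:ℝ) ≤ N := by positivity
  have h3 : 0 ≤ ((roughSet N (2 ^ i)).card : ℝ) * i * (Real.log 2 - 0.69) := by
    apply mul_nonneg (by positivity); linarith
  nlinarith

/-! ### The far part -/

theorem far_sum (n : ℕ) :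
    ∑ p ∈ (Finset.range n).filter Nat.Prime, (1 : ℝ) / ((p : ℝ) * (Nat.log 2 p : ℝ)) ≤ 148 := by
  classical
  have hmaps : ∀ p ∈ (Finset.range n).filter Nat.Prime, Nat.log 2 p ∈ Finset.Icc 1 n := by
    intro p hp
    simp only [mem_filter, mem_range] at hp
    rw [mem_Icc]
    refine ⟨?_, (Nat.log_le_self 2 p).trans hp.1.le⟩
    exact Nat.log_pos (by norm_num) hp.2.two_le
  rw [← Finset.sum_fiberwise_of_maps_to hmaps]
  calc ∑ i ∈ Finset.Icc 1 n, ∑ p ∈ ((Finset.range n).filter Nat.Prime).filter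
          (fun p => Nat.log 2 p = i), (1 : ℝ) / ((p : ℝ) * (Nat.log 2 p : ℝ))
      ≤ ∑ i ∈ Finset.Icc 1 n, 74 * ((1 : ℝ) / ((i : ℝ) * i)) := by
        refine Finset.sum_le_sum fun i hi => ?_
        rw [mem_Icc] at hi
        have hi' : (0:ℝ) < i := by exact_mod_cast hi.1
        have hsub : ((Finset.range n).filter Nat.Prime).filter (fun p => Nat.log 2 p = i) ⊆
            roughSet (2 ^ (i + 1)) (2 ^ i) := by
          intro p hp
          simp only [mem_filter, mem_range] at hp
          obtain ⟨⟨_, hpp⟩, hl⟩ := hp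
          rw [mem_roughSet]
          have h1 : 2 ^ i ≤ p := by
            rw [← hl]; exact Nat.pow_log_le_self 2 hpp.ne_zero
          have h2 : p < 2 ^ (i + 1) := by
            rw [← hl]; exact Nat.lt_pow_succ_log_self (by norm_num) p
          refine ⟨⟨hpp.pos, h2.le⟩, ?_⟩
          intro q hq hqp
          rw [(Nat.prime_dvd_prime_iff_eq hq hpp).mp hqp]; exact h1
        calc ∑ p ∈ ((Finset.range n).filter Nat.Prime).filter (fun p => Nat.log 2 p = i),
              (1 : ℝ) / ((p : ℝ) * (Nat.log 2 p : ℝ))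
            ≤ ∑ p ∈ ((Finset.range n).filter Nat.Prime).filter (fun p => Nat.log 2 p = i),
              (1 : ℝ) / ((2 : ℝ) ^ i * i) := by
              refine Finset.sum_le_sum fun p hp => ?_
              simp only [mem_filter, mem_range] at hp
              obtain ⟨⟨_, hpp⟩, hl⟩ := hp
              rw [hl]
              have h1 : 2 ^ i ≤ p := by
                rw [← hl]; exact Nat.pow_log_le_self 2 hpp.ne_zero
              have h1' : (2:ℝ) ^ i ≤ p := by exact_mod_cast h1
              gcongr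
          _ = ((((Finset.range n).filter Nat.Prime).filter (fun p => Nat.log 2 p = i)).card : ℝ) *
              ((1 : ℝ) / ((2 : ℝ) ^ i * i)) := by rw [Finset.sum_const, nsmul_eq_mul]
          _ ≤ ((roughSet (2 ^ (i + 1)) (2 ^ i)).card : ℝ) * ((1 : ℝ) / ((2 : ℝ) ^ i * i)) := by
              gcongr
          _ ≤ (37 * ((2 ^ (i + 1) : ℕ) : ℝ) / i) * ((1 : ℝ) / ((2 : ℝ) ^ i * i)) := by
              gcongr
              exact rough_card' hi.1 (Nat.pow_le_pow_right (by norm_num) (by omega))
          _ = 74 * ((1 : ℝ) / ((i : ℝ) * i)) := by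
              push_cast
              rw [pow_succ]
              field_simp
              norm_num
    _ = 74 * ∑ i ∈ Finset.Icc 1 n, ((1 : ℝ) / ((i : ℝ) * i)) := by rw [Finset.mul_sum]
    _ ≤ 74 * 2 := by
        have := inv_sq_sum n
        linarith
    _ = 148 := by norm_num

/-- the near part of a term -/
theorem near_block (p m : ℕ) (hp : 1 ≤ p) :
    ∑ a ∈ Finset.Ico p (p * (m + 1)), (1 : ℝ) / a ≤ ∑ i ∈ Finset.Icc 1 m, (1 : ℝ) / i := by
  induction m with
  | zero => simp
  | succ m ih =>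
    rw [Finset.sum_Icc_succ_top (by omega)]
    have h1 : p ≤ p * (m + 1) := Nat.le_mul_of_pos_right p (by omega)
    have h2 : p * (m + 1) ≤ p * (m + 1 + 1) := Nat.mul_le_mul_left p (by omega)
    rw [← Finset.sum_Ico_consecutive _ h1 h2]
    have h3 : ∑ a ∈ Finset.Ico (p * (m + 1)) (p * (m + 1 + 1)), (1 : ℝ) / a ≤
        (1 : ℝ) / ((m + 1 : ℕ) : ℝ) := by
      have hp' : (0:ℝ) < p := by exact_mod_cast hp
      calc ∑ a ∈ Finset.Ico (p * (m + 1)) (p * (m + 1 + 1)), (1 : ℝ) / a
          ≤ ∑ a ∈ Finset.Ico (p * (m + 1)) (p * (m + 1 + 1)), (1 : ℝ) / ((p : ℝ) * ((m + 1 : ℕ) : ℝ)) := by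
            refine Finset.sum_le_sum fun a ha => ?_
            rw [mem_Ico] at ha
            have : ((p : ℝ) * ((m + 1 : ℕ) : ℝ)) ≤ a := by exact_mod_cast ha.1
            gcongr
        _ = (1 : ℝ) / ((m + 1 : ℕ) : ℝ) := by
            rw [Finset.sum_const, nsmul_eq_mul, Nat.card_Ico]
            have : p * (m + 1 + 1) - p * (m + 1) = p := by
              rw [← Nat.mul_sub]; simp
            rw [this]
            field_simp
    linarith

theorem near_block' (p L : ℕ) (hp : 1 ≤ p) :
    ∑ a ∈ Finset.Ico p (p * L), (1 : ℝ) / a ≤ ∑ i ∈ Finset.Ico 1 L, (1 : ℝ) / i := by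
  rcases L with _ | L
  · simp
  · have := near_block p L hp
    have e : Finset.Ico 1 (L + 1) = Finset.Icc 1 L := by
      ext i; simp only [mem_Ico, mem_Icc]; omega
    rw [e]; exact this

/-- average of the near parts -/
theorem near_avg (N : ℕ) :
    ∑ k ∈ Finset.Icc 2 N, ∑ i ∈ Finset.Ico 1 (Nat.log 2 k.minFac), (1 : ℝ) / i ≤ 74 * N := by
  classical
  have h1 : ∀ k ∈ Finset.Icc 2 N, ∑ i ∈ Finset.Ico 1 (Nat.log 2 k.minFac), (1 : ℝ) / i =
      ∑ i ∈ Finset.Icc 1 N, if i < Nat.log 2 k.minFac then (1 : ℝ) / i else 0 := by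
    intro k hk
    rw [mem_Icc] at hk
    rw [← Finset.sum_filter]
    refine Finset.sum_congr ?_ fun _ _ => rfl
    ext i
    simp only [mem_Ico, mem_filter, mem_Icc]
    constructor
    · rintro ⟨ha, hb⟩
      refine ⟨⟨ha, ?_⟩, hb⟩
      have := Nat.log_le_self 2 k.minFac
      have := Nat.minFac_le (by omega : 0 < k)
      omega
    · rintro ⟨⟨ha, _⟩, hb⟩
      exact ⟨ha, hb⟩
  rw [Finset.sum_congr rfl h1, Finset.sum_comm]
  calc ∑ i ∈ Finset.Icc 1 N, ∑ k ∈ Finset.Icc 2 N, (if i < Nat.log 2 k.minFac then (1 : ℝ) / i else 0)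
      ≤ ∑ i ∈ Finset.Icc 1 N, (37 * N) * ((1 : ℝ) / ((i : ℝ) * i)) := by
        refine Finset.sum_le_sum fun i hi => ?_
        rw [mem_Icc] at hi
        have hi' : (0:ℝ) < i := by exact_mod_cast hi.1
        rw [← Finset.sum_filter, Finset.sum_const, nsmul_eq_mul]
        by_cases hN : 2 ^ i ≤ N
        · have hsub : (Finset.Icc 2 N).filter (fun k => i < Nat.log 2 k.minFac) ⊆
              roughSet N (2 ^ i) := by
            intro k hk
            simp only [mem_filter, mem_Icc] at hk
            rw [mem_roughSet]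
            refine ⟨⟨by omega, hk.1.2⟩, ?_⟩
            intro q hq hqk
            have e1 : k.minFac ≤ q := Nat.minFac_le_of_dvd hq.two_le hqk
            have e2 : 2 ^ (Nat.log 2 k.minFac) ≤ k.minFac :=
              Nat.pow_log_le_self 2 (Nat.minFac_pos k).ne'
            have e3 : 2 ^ i ≤ 2 ^ (Nat.log 2 k.minFac) :=
              Nat.pow_le_pow_right (by norm_num) hk.2.le
            omega
          have h3 : (((Finset.Icc 2 N).filter (fun k => i < Nat.log 2 k.minFac)).card : ℝ) ≤
              37 * N / i := by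
            have := Finset.card_le_card hsub
            have h4 := rough_card' hi.1 hN
            have h5 : (((Finset.Icc 2 N).filter (fun k => i < Nat.log 2 k.minFac)).card : ℝ) ≤
              (roughSet N (2 ^ i)).card := by exact_mod_cast this
            linarith
          calc _ ≤ (37 * N / i) * ((1:ℝ) / i) := by gcongr
            _ = _ := by field_simp
        · have : (Finset.Icc 2 N).filter (fun k => i < Nat.log 2 k.minFac) = ∅ := by
            rw [Finset.filter_eq_empty_iff]
            intro k hk hlt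
            rw [mem_Icc] at hk
            have e2 : 2 ^ (Nat.log 2 k.minFac) ≤ k.minFac :=
              Nat.pow_log_le_self 2 (Nat.minFac_pos k).ne'
            have e3 : 2 ^ i ≤ 2 ^ (Nat.log 2 k.minFac) :=
              Nat.pow_le_pow_right (by norm_num) hlt.le
            have := Nat.minFac_le (by omega : 0 < k)
            omega
          rw [this]
          simp only [card_empty, Nat.cast_zero, zero_mul]
          positivity
    _ = (37 * N) * ∑ i ∈ Finset.Icc 1 N, ((1 : ℝ) / ((i : ℝ) * i)) := by rw [Finset.mul_sum]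
    _ ≤ (37 * N) * 2 := by
        gcongr
        exact inv_sq_sum N
    _ = 74 * N := by ring

theorem total (N : ℕ) : ∑ n ∈ Finset.Icc 1 N, properSum false n ≤ 222 * N := by
  classical
  have hsplit : ∀ n, properSum false n ≤
      ∑ a ∈ (P n).filter (fun a => a < (n - a).minFac * Nat.log 2 (n - a).minFac), (1 : ℝ) / a
      + 148 := by
    intro n
    rw [properSum_eq, ← Finset.sum_filter_add_sum_filter_not (P n)
      (fun a => a < (n - a).minFac * Nat.log 2 (n - a).minFac)]
    gcongr
    calc ∑ a ∈ (P n).filter (fun a => ¬ a < (n - a).minFac * Nat.log 2 (n - a).minFac), (1 : ℝ) / a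
        ≤ ∑ a ∈ (P n).filter (fun a => ¬ a < (n - a).minFac * Nat.log 2 (n - a).minFac),
            (1 : ℝ) / (((n - a).minFac : ℝ) * (Nat.log 2 (n - a).minFac : ℝ)) := by
          refine Finset.sum_le_sum fun a ha => ?_
          rw [mem_filter] at ha
          obtain ⟨ha, hlt⟩ := ha
          have hp := (mem_P ha).2.2.2.1
          have hl : 0 < Nat.log 2 (n - a).minFac := Nat.log_pos (by norm_num) hp.two_le
          have hp0 := hp.pos
          have h1 : (((n - a).minFac : ℝ) * (Nat.log 2 (n - a).minFac : ℝ)) ≤ a := by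
            exact_mod_cast not_lt.mp hlt
          have h2 : (0:ℝ) < ((n - a).minFac : ℝ) * (Nat.log 2 (n - a).minFac : ℝ) := by
            positivity
          gcongr
      _ ≤ ∑ a ∈ P n, (1 : ℝ) / (((n - a).minFac : ℝ) * (Nat.log 2 (n - a).minFac : ℝ)) :=
          Finset.sum_le_sum_of_subset_of_nonneg (Finset.filter_subset _ _)
            (fun _ _ _ => by positivity)
      _ = ∑ p ∈ (P n).image (fun a => (n - a).minFac), (1 : ℝ) / ((p : ℝ) * (Nat.log 2 p : ℝ)) := by
          rw [Finset.sum_image minFac_inj]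
      _ ≤ ∑ p ∈ (Finset.range n).filter Nat.Prime, (1 : ℝ) / ((p : ℝ) * (Nat.log 2 p : ℝ)) := by
          refine Finset.sum_le_sum_of_subset_of_nonneg ?_ (fun _ _ _ => by positivity)
          intro p hp
          rw [mem_image] at hp
          obtain ⟨a, ha, rfl⟩ := hp
          have := mem_P ha
          simp only [mem_filter, mem_range]
          exact ⟨by omega, this.2.2.2.1⟩
      _ ≤ 148 := far_sum n
  calc ∑ n ∈ Finset.Icc 1 N, properSum false n
      ≤ ∑ n ∈ Finset.Icc 1 N, (∑ a ∈ (P n).filter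
          (fun a => a < (n - a).minFac * Nat.log 2 (n - a).minFac), (1 : ℝ) / a + 148) :=
        Finset.sum_le_sum fun n _ => hsplit n
    _ = ∑ x ∈ (Finset.Icc 1 N).sigma (fun n => (P n).filter
          (fun a => a < (n - a).minFac * Nat.log 2 (n - a).minFac)), (1 : ℝ) / (x.2 : ℝ)
          + 148 * N := by
        rw [Finset.sum_add_distrib, Finset.sum_sigma]
        simp [mul_comm]
    _ = ∑ y ∈ ((Finset.Icc 1 N).sigma (fun n => (P n).filter
          (fun a => a < (n - a).minFac * Nat.log 2 (n - a).minFac))).image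
          (fun x : (_ : ℕ) × ℕ => (⟨x.1 - x.2, x.2⟩ : (_ : ℕ) × ℕ)), (1 : ℝ) / (y.2 : ℝ)
          + 148 * N := by
        rw [Finset.sum_image]
        rintro ⟨n, a⟩ h1 ⟨n', a'⟩ h2 h
        simp only [coe_sigma, Set.mem_sigma_iff, mem_coe, mem_filter] at h1 h2
        have e1 := (mem_P h1.2.1).2.2.1
        have e2 := (mem_P h2.2.1).2.2.1
        simp only [Sigma.mk.injEq, heq_eq_eq] at h
        obtain ⟨ha, hb⟩ := h
        subst hb
        have : n = n' := by omega
        subst this; rfl
    _ ≤ ∑ y ∈ (Finset.Icc 2 N).sigma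
          (fun k => Finset.Ico k.minFac (k.minFac * Nat.log 2 k.minFac)), (1 : ℝ) / (y.2 : ℝ)
          + 148 * N := by
        refine add_le_add ?_ le_rfl
        refine Finset.sum_le_sum_of_subset_of_nonneg ?_ (fun _ _ _ => by positivity)
        rintro ⟨k, a⟩ hy
        simp only [mem_image, mem_sigma, mem_filter, Sigma.exists, Sigma.mk.injEq, heq_eq_eq,
          mem_Icc] at hy
        obtain ⟨n, a', ⟨⟨hn1, hn2⟩, haP, hlt⟩, hk, rfl⟩ := hy
        subst hk
        have h := mem_P haP
        simp only [mem_sigma, mem_Icc, mem_Ico]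
        refine ⟨⟨?_, by omega⟩, h.2.2.2.2, hlt⟩
        have h3 := Nat.minFac_le (by omega : 0 < n - a')
        have h4 := h.2.2.2.1.two_le
        omega
    _ = ∑ k ∈ Finset.Icc 2 N, ∑ a ∈ Finset.Ico k.minFac (k.minFac * Nat.log 2 k.minFac),
          (1 : ℝ) / (a : ℝ) + 148 * N := by rw [Finset.sum_sigma]
    _ ≤ ∑ k ∈ Finset.Icc 2 N, ∑ i ∈ Finset.Ico 1 (Nat.log 2 k.minFac), (1 : ℝ) / i + 148 * N := by
        refine add_le_add ?_ le_rfl
        exact Finset.sum_le_sum fun k _ => near_block' _ _ (Nat.minFac_pos k)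
    _ ≤ 74 * N + 148 * N := by
        gcongr
        exact near_avg N
    _ = 222 * N := by ring

/-- The small-divisor part `S₁(n)` of the greedy reciprocal sum has average at most `222` over
`1 ≤ n ≤ N` for every `N`; in particular `S₁(n)` does not tend to infinity. -/
theorem result :
    (∀ N : ℕ, ∑ n ∈ Finset.Icc 1 N, properSum false n ≤ 222 * N) ∧
    (∃ᶠ n in Filter.atTop, properSum false n ≤ 445) ∧
    ¬ Filter.Tendsto (properSum false) Filter.atTop Filter.atTop := by
  have hfreq : ∃ᶠ n in Filter.atTop, properSum false n ≤ 445 := by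
    intro hev
    obtain ⟨n0, hn0⟩ := Filter.eventually_atTop.mp hev
    have h0 : ∀ n, 0 ≤ properSum false n := by
      intro n
      rw [properSum_eq]
      positivity
    set M := n0 + 1 with hM
    have h1 := total (2 * M)
    have h2 : ∑ n ∈ Finset.Ioc M (2 * M), (445 : ℝ) ≤
        ∑ n ∈ Finset.Icc 1 (2 * M), properSum false n := by
      calc ∑ n ∈ Finset.Ioc M (2 * M), (445 : ℝ)
          ≤ ∑ n ∈ Finset.Ioc M (2 * M), properSum false n := by
            refine Finset.sum_le_sum fun n hn => ?_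
            rw [mem_Ioc] at hn
            exact (not_le.mp (hn0 n (by omega))).le
        _ ≤ ∑ n ∈ Finset.Icc 1 (2 * M), properSum false n := by
            refine Finset.sum_le_sum_of_subset_of_nonneg ?_ (fun n _ _ => h0 n)
            intro n hn
            rw [mem_Ioc] at hn
            rw [mem_Icc]; omega
    rw [Finset.sum_const, nsmul_eq_mul, Nat.card_Ioc, show 2 * M - M = M by omega] at h2
    push_cast at h1 h2
    have hMpos : (0:ℝ) < M := by positivity
    nlinarith
  refine ⟨total, hfreq, fun h => hfreq ?_⟩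
  filter_upwards [h.eventually_gt_atTop 445] with n hn
  exact not_le.mpr hn

end Pool.Agent.Results.MP_d025d0_nt.SmallDivisorPart
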